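import Mathlib

/-! # Slow approach: holomorphic discs whose speed is small near a point -/

set_option autoImplicit false

namespace Pool.Agent.K7x.IN

open Complex Metric Set Filter Topology MeasureTheory

/-- Discs in `M` are slow near the points of `K`. -/
def Slow (M K : Set ℂ) (B κ : ℝ) : Prop :=
  ∀ γ : ℂ → ℂ, DifferentiableOn ℂ γ (ball 0 1) → (∀ t ∈ ball (0 : ℂ) 1, γ t ∈ M) →
    ∀ c ∈ K, γ 0 ≠ c → ‖deriv γ 0‖ ≤ B * ‖γ 0 - c‖ ^ (1 + κ)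

variable {M K : Set ℂ} {B κ : ℝ} {φ : ℂ → ℂ}

theorem mem_disc {z w : ℂ} (hz : z ∈ ball (0 : ℂ) 1) (hw : w ∈ ball (0 : ℂ) 1) :
    z + ((1 - ‖z‖ : ℝ) : ℂ) * w ∈ ball (0 : ℂ) 1 := by
  rw [mem_ball_zero_iff] at hz hw ⊢
  calc ‖z + ((1 - ‖z‖ : ℝ) : ℂ) * w‖ ≤ ‖z‖ + ‖((1 - ‖z‖ : ℝ) : ℂ) * w‖ := norm_add_le _ _
    _ = ‖z‖ + (1 - ‖z‖) * ‖w‖ := by
        rw [norm_mul, Complex.norm_real, Real.norm_of_nonneg (by linarith)]
    _ < 1 := by nlinarith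

/-- the inequality at all points of the disc -/
theorem Slow.at (h : Slow M K B κ) (hφ : DifferentiableOn ℂ φ (ball 0 1))
    (hM : ∀ t ∈ ball (0 : ℂ) 1, φ t ∈ M) {c : ℂ} (hc : c ∈ K) {z : ℂ} (hz : z ∈ ball (0 : ℂ) 1)
    (hne : φ z ≠ c) : (1 - ‖z‖) * ‖deriv φ z‖ ≤ B * ‖φ z - c‖ ^ (1 + κ) := by
  have hz1 : ‖z‖ < 1 := mem_ball_zero_iff.1 hz
  set γ : ℂ → ℂ := fun w => φ (z + ((1 - ‖z‖ : ℝ) : ℂ) * w) with hγ
  have h0 : γ 0 = φ z := by rw [hγ]; simp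
  have hd : DifferentiableOn ℂ γ (ball 0 1) := by
    refine hφ.comp (Differentiable.differentiableOn (by fun_prop)) fun w hw => mem_disc hz hw
  have h1 := h γ hd (fun t ht => hM _ (mem_disc hz ht)) c hc (by rw [h0]; exact hne)
  have h2 : HasDerivAt γ (deriv φ z * ((1 - ‖z‖ : ℝ) : ℂ)) 0 := by
    have h3 : HasDerivAt (fun w : ℂ => z + ((1 - ‖z‖ : ℝ) : ℂ) * w) ((1 - ‖z‖ : ℝ) : ℂ) 0 := by
      simpa using ((hasDerivAt_id (0 : ℂ)).const_mul ((1 - ‖z‖ : ℝ) : ℂ)).const_add z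
    have h4 : HasDerivAt φ (deriv φ z) (z + ((1 - ‖z‖ : ℝ) : ℂ) * 0) := by
      rw [mul_zero, add_zero]
      exact (hφ.differentiableAt (isOpen_ball.mem_nhds hz)).hasDerivAt
    exact h4.comp (0 : ℂ) h3
  rw [h0, h2.deriv, norm_mul, Complex.norm_real, Real.norm_of_nonneg (by linarith)] at h1
  linarith

/-- the regularised function -/
theorem reg_deriv {g : ℝ → ℂ} {g' : ℂ} {t ε κ : ℝ} (hε : 0 < ε) (hg : HasDerivAt g g' t) :
    HasDerivAt (fun t => (‖g t‖ ^ 2 + ε ^ 2) ^ (-κ / 2))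
      (2 * inner ℝ (g t) g' * (-κ / 2) * (‖g t‖ ^ 2 + ε ^ 2) ^ (-κ / 2 - 1)) t := by
  have h1 : HasDerivAt (fun t => ‖g t‖ ^ 2 + ε ^ 2) (2 * inner ℝ (g t) g') t :=
    hg.norm_sq.add_const _
  exact h1.rpow_const (Or.inl (by positivity))

theorem reg_bound {x y A ε κ : ℝ} (hε : 0 < ε) (hκ : 0 < κ) (hx : 0 ≤ x) (hA : 0 ≤ A)
    (hy : x ≠ 0 → y ≤ A * x ^ (1 + κ)) :
    κ * (x * y) * (x ^ 2 + ε ^ 2) ^ (-κ / 2 - 1) ≤ κ * A := by
  rcases eq_or_ne x 0 with rfl | hx0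
  · simp only [zero_mul, mul_zero]
    positivity
  have hxp : 0 < x := lt_of_le_of_ne hx (Ne.symm hx0)
  have h1 := hy hx0
  have hs : 0 < x ^ 2 + ε ^ 2 := by positivity
  have he : x ^ (2 + κ) = x * x ^ (1 + κ) := by
    rw [show (2 : ℝ) + κ = 1 + (1 + κ) by ring, Real.rpow_add hxp 1 (1 + κ), Real.rpow_one]
  have h2 : x * y ≤ A * x ^ (2 + κ) := by
    calc x * y ≤ x * (A * x ^ (1 + κ)) := mul_le_mul_of_nonneg_left h1 hx
      _ = A * x ^ (2 + κ) := by rw [he]; ring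
  have h3 : x ^ (2 + κ) ≤ (x ^ 2 + ε ^ 2) ^ (κ / 2 + 1) := by
    have h4 : x ^ (2 + κ) = (x ^ 2) ^ (κ / 2 + 1) := by
      rw [← Real.rpow_natCast, ← Real.rpow_mul hx]
      congr 1
      push_cast
      ring
    rw [h4]
    exact Real.rpow_le_rpow (by positivity) (by nlinarith) (by positivity)
  have h5 : (x ^ 2 + ε ^ 2) ^ (κ / 2 + 1) * (x ^ 2 + ε ^ 2) ^ (-κ / 2 - 1) = 1 := by
    rw [← Real.rpow_add hs]
    rw [show κ / 2 + 1 + (-κ / 2 - 1) = 0 by ring, Real.rpow_zero]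
  have h6 : 0 ≤ (x ^ 2 + ε ^ 2) ^ (-κ / 2 - 1) := by positivity
  calc κ * (x * y) * (x ^ 2 + ε ^ 2) ^ (-κ / 2 - 1)
      ≤ κ * (A * (x ^ 2 + ε ^ 2) ^ (κ / 2 + 1)) * (x ^ 2 + ε ^ 2) ^ (-κ / 2 - 1) := by
        apply mul_le_mul_of_nonneg_right _ h6
        apply mul_le_mul_of_nonneg_left _ hκ.le
        exact h2.trans (mul_le_mul_of_nonneg_left h3 hA)
    _ = κ * A * ((x ^ 2 + ε ^ 2) ^ (κ / 2 + 1) * (x ^ 2 + ε ^ 2) ^ (-κ / 2 - 1)) := by ring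
    _ = κ * A := by rw [h5, mul_one]

/-- the differential inequality along a segment -/
theorem reg_mono {g g' : ℝ → ℂ} {A κ s ε : ℝ} (hκ : 0 < κ) (hA : 0 ≤ A) (hs0 : 0 ≤ s) (hs1 : s < 1)
    (hε : 0 < ε) (hg : ∀ t ∈ Icc 0 s, HasDerivAt g (g' t) t)
    (hb : ∀ t ∈ Icc 0 s, g t ≠ 0 → (1 - t) * ‖g' t‖ ≤ A * ‖g t‖ ^ (1 + κ)) :
    (‖g s‖ ^ 2 + ε ^ 2) ^ (-κ / 2) ≤ (‖g 0‖ ^ 2 + ε ^ 2) ^ (-κ / 2) + κ * A * -Real.log (1 - s) := by
  set w : ℝ → ℝ := fun t => (‖g t‖ ^ 2 + ε ^ 2) ^ (-κ / 2) + κ * A * Real.log (1 - t) with hw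
  have hder : ∀ t ∈ Icc 0 s, HasDerivAt w (2 * inner ℝ (g t) (g' t) * (-κ / 2) *
      (‖g t‖ ^ 2 + ε ^ 2) ^ (-κ / 2 - 1) + κ * A * (-1 / (1 - t))) t := by
    intro t ht
    have h1 := reg_deriv (κ := κ) hε (hg t ht)
    have h2 : HasDerivAt (fun t : ℝ => 1 - t) (-1) t := by
      simpa using (hasDerivAt_id t).const_sub 1
    have h3 := (h2.log (by linarith [ht.2])).const_mul (κ * A)
    exact h1.add h3
  have hanti : AntitoneOn w (Icc 0 s) := by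
    apply antitoneOn_of_deriv_nonpos (convex_Icc 0 s)
    · exact fun t ht => (hder t ht).continuousAt.continuousWithinAt
    · intro t ht
      rw [interior_Icc] at ht
      exact (hder t (Ioo_subset_Icc_self ht)).differentiableAt.differentiableWithinAt
    · intro t ht
      rw [interior_Icc] at ht
      have ht' := Ioo_subset_Icc_self ht
      rw [(hder t ht').deriv]
      have h1t : 0 < 1 - t := by linarith [ht.2]
      have h1 : -(inner ℝ (g t) (g' t)) ≤ ‖g t‖ * ‖g' t‖ := by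
        have := abs_real_inner_le_norm (g t) (g' t)
        have h2 := neg_abs_le (inner ℝ (g t) (g' t))
        linarith
      have h6 : 0 ≤ (‖g t‖ ^ 2 + ε ^ 2) ^ (-κ / 2 - 1) := by positivity
      have h7 := reg_bound (x := ‖g t‖) (y := ‖g' t‖) (A := A / (1 - t)) (κ := κ) hε hκ
        (norm_nonneg _) (by positivity) (fun h0 => by
          have := hb t ht' (norm_ne_zero_iff.1 h0)
          rw [div_mul_eq_mul_div, le_div_iff₀ h1t]
          linarith)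
      have h8 : 2 * inner ℝ (g t) (g' t) * (-κ / 2) * (‖g t‖ ^ 2 + ε ^ 2) ^ (-κ / 2 - 1) ≤
          κ * (‖g t‖ * ‖g' t‖) * (‖g t‖ ^ 2 + ε ^ 2) ^ (-κ / 2 - 1) := by
        apply mul_le_mul_of_nonneg_right _ h6
        nlinarith
      have h9 : κ * A * (-1 / (1 - t)) = -(κ * (A / (1 - t))) := by ring
      linarith
  have h1 := hanti (left_mem_Icc.2 hs0) (right_mem_Icc.2 hs0) hs0
  simp only [hw, sub_zero, Real.log_one, mul_zero, add_zero] at h1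
  linarith

/-- **Slow approach.** -/
theorem reg_lim {g g' : ℝ → ℂ} {A κ s : ℝ} (hκ : 0 < κ) (hA : 0 ≤ A) (hs0 : 0 ≤ s) (hs1 : s < 1)
    (hg : ∀ t ∈ Icc 0 s, HasDerivAt g (g' t) t)
    (hb : ∀ t ∈ Icc 0 s, g t ≠ 0 → (1 - t) * ‖g' t‖ ≤ A * ‖g t‖ ^ (1 + κ)) (h0 : g 0 ≠ 0) :
    g s ≠ 0 ∧ ‖g s‖ ^ (-κ) ≤ ‖g 0‖ ^ (-κ) + κ * A * -Real.log (1 - s) := by
  have hn0 : 0 < ‖g 0‖ := norm_pos_iff.2 h0
  set R : ℝ := ‖g 0‖ ^ (-κ) + κ * A * -Real.log (1 - s) with hR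
  have hle : ∀ ε : ℝ, 0 < ε → (‖g s‖ ^ 2 + ε ^ 2) ^ (-κ / 2) ≤ R := by
    intro ε hε
    refine (reg_mono hκ hA hs0 hs1 hε hg hb).trans ?_
    rw [hR]
    gcongr
    have h1 : ‖g 0‖ ^ (-κ) = (‖g 0‖ ^ 2) ^ (-κ / 2) := by
      rw [← Real.rpow_natCast, ← Real.rpow_mul hn0.le]
      congr 1
      push_cast
      ring
    rw [h1]
    apply Real.rpow_le_rpow_of_nonpos (by positivity) (by nlinarith)
    linarith
  have hgs : g s ≠ 0 := by
    intro hcon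
    have hRpos : 0 < R := by
      have := hle 1 one_pos
      refine lt_of_lt_of_le ?_ this
      positivity
    have h1 := hle ((R + 1) ^ (-κ⁻¹)) (by positivity)
    rw [hcon, norm_zero] at h1
    have h2 : ((0 : ℝ) ^ 2 + ((R + 1) ^ (-κ⁻¹)) ^ 2) ^ (-κ / 2) = R + 1 := by
      rw [zero_pow two_ne_zero, zero_add, ← Real.rpow_natCast, ← Real.rpow_mul (by positivity),
        ← Real.rpow_mul (by positivity)]
      rw [show -κ⁻¹ * (((2 : ℕ) : ℝ) * (-κ / 2)) = 1 by push_cast; field_simp, Real.rpow_one]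
    rw [h2] at h1
    linarith
  refine ⟨hgs, ?_⟩
  have hns : 0 < ‖g s‖ := norm_pos_iff.2 hgs
  have hc : Tendsto (fun ε : ℝ => (‖g s‖ ^ 2 + ε ^ 2) ^ (-κ / 2)) (𝓝[>] 0)
      (𝓝 ((‖g s‖ ^ 2 + 0 ^ 2) ^ (-κ / 2))) := by
    have h1 : ContinuousAt (fun ε : ℝ => (‖g s‖ ^ 2 + ε ^ 2) ^ (-κ / 2)) 0 := by
      apply ContinuousAt.rpow_const
      · fun_prop
      · left; positivity
    exact h1.tendsto.mono_left nhdsWithin_le_nhds
  have h1 : ‖g s‖ ^ (-κ) = (‖g s‖ ^ 2 + 0 ^ 2) ^ (-κ / 2) := by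
    rw [zero_pow two_ne_zero, add_zero, ← Real.rpow_natCast, ← Real.rpow_mul hns.le]
    congr 1
    push_cast
    ring
  rw [h1]
  exact le_of_tendsto hc (by filter_upwards [self_mem_nhdsWithin] with ε hε using hle ε hε)

/-- **The rate of approach** of a holomorphic disc to a point near which discs are slow. -/
theorem Slow.rate (h : Slow M K B κ) (hB : 0 ≤ B) (hκ : 0 < κ)
    (hφ : DifferentiableOn ℂ φ (ball 0 1)) (hM : ∀ t ∈ ball (0 : ℂ) 1, φ t ∈ M) {c : ℂ}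
    (hc : c ∈ K) (h0 : φ 0 ≠ c) {z : ℂ} (hz : z ∈ ball (0 : ℂ) 1) :
    φ z ≠ c ∧ ‖φ z - c‖ ^ (-κ) ≤ ‖φ 0 - c‖ ^ (-κ) + κ * B * -Real.log (1 - ‖z‖) := by
  have hz1 : ‖z‖ < 1 := mem_ball_zero_iff.1 hz
  obtain ⟨ζ, hζ, hzζ⟩ : ∃ ζ : ℂ, ‖ζ‖ = 1 ∧ z = (‖z‖ : ℝ) * ζ := by
    rcases eq_or_ne z 0 with rfl | hz0
    · exact ⟨1, norm_one, by simp⟩
    · refine ⟨z / (‖z‖ : ℝ), ?_, ?_⟩
      · rw [norm_div, Complex.norm_real, norm_norm, div_self (norm_ne_zero_iff.2 hz0)]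
      · have : ((‖z‖ : ℝ) : ℂ) ≠ 0 := by exact_mod_cast norm_ne_zero_iff.2 hz0
        field_simp
  have hmem : ∀ t ∈ Icc (0 : ℝ) ‖z‖, (t : ℂ) * ζ ∈ ball (0 : ℂ) 1 ∧ ‖(t : ℂ) * ζ‖ = t := by
    intro t ht
    have h1 : ‖(t : ℂ) * ζ‖ = t := by
      rw [norm_mul, hζ, mul_one, Complex.norm_real, Real.norm_of_nonneg ht.1]
    refine ⟨?_, h1⟩
    rw [mem_ball_zero_iff, h1]
    linarith [ht.2]
  have hg : ∀ t ∈ Icc (0 : ℝ) ‖z‖, HasDerivAt (fun t : ℝ => φ ((t : ℂ) * ζ) - c)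
      (deriv φ ((t : ℂ) * ζ) * ζ) t := by
    intro t ht
    have h1 : HasDerivAt φ (deriv φ ((t : ℂ) * ζ)) ((t : ℂ) * ζ) :=
      (hφ.differentiableAt (isOpen_ball.mem_nhds (hmem t ht).1)).hasDerivAt
    have h2 : HasDerivAt (fun t : ℝ => (t : ℂ) * ζ) ζ t := by
      simpa using (ofRealCLM.hasDerivAt (x := t)).mul_const ζ
    exact (h1.comp_of_eq t h2 rfl).sub_const c
  have key := reg_lim (g := fun t : ℝ => φ ((t : ℂ) * ζ) - c)
    (g' := fun t : ℝ => deriv φ ((t : ℂ) * ζ) * ζ) hκ hB (norm_nonneg z) hz1 hg (by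
      intro t ht hne
      have h1 := h.at hφ hM hc (hmem t ht).1 (sub_ne_zero.1 hne)
      rw [(hmem t ht).2] at h1
      rwa [norm_mul, hζ, mul_one]) (by
      simp only [ofReal_zero, zero_mul]
      exact sub_ne_zero.2 h0)
  simp only [ofReal_zero, zero_mul, ← hzζ] at key
  exact ⟨sub_ne_zero.1 key.1, key.2⟩

/-- the points of `K` are not in the interior -/
theorem Slow.not_interior (h : Slow M K B κ) (hκ : 0 < κ) {c : ℂ} (hc : c ∈ K) :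
    c ∉ interior M := by
  intro hcon
  obtain ⟨ρ, hρ, hsub⟩ := Metric.isOpen_iff.1 isOpen_interior c hcon
  have hsub' : ball c ρ ⊆ M := hsub.trans interior_subset
  have key : ∀ x : ℝ, 0 < x → x < ρ / 2 → ρ / 2 ≤ B * x ^ (1 + κ) := by
    intro x hx0 hx
    have h1 := h (fun w => c + x + ((ρ / 2 : ℝ) : ℂ) * w) (by fun_prop) (by
      intro t ht
      apply hsub'
      rw [mem_ball_zero_iff] at ht
      rw [mem_ball, dist_eq_norm]
      calc ‖c + x + ((ρ / 2 : ℝ) : ℂ) * t - c‖ = ‖(x : ℂ) + ((ρ / 2 : ℝ) : ℂ) * t‖ := by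
            congr 1; ring
        _ ≤ ‖(x : ℂ)‖ + ‖((ρ / 2 : ℝ) : ℂ) * t‖ := norm_add_le _ _
        _ = x + ρ / 2 * ‖t‖ := by
            rw [norm_mul, Complex.norm_real, Complex.norm_real, Real.norm_of_nonneg hx0.le,
              Real.norm_of_nonneg (by positivity)]
        _ < ρ := by nlinarith) c hc (by
      simp only [mul_zero, add_zero]
      intro h2
      have : (x : ℂ) = 0 := by linear_combination h2
      exact hx0.ne' (by exact_mod_cast this))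
    have h2 : HasDerivAt (fun w : ℂ => c + x + ((ρ / 2 : ℝ) : ℂ) * w) ((ρ / 2 : ℝ) : ℂ) 0 := by
      simpa using ((hasDerivAt_id (0 : ℂ)).const_mul ((ρ / 2 : ℝ) : ℂ)).const_add (c + x)
    rw [h2.deriv, Complex.norm_real, Real.norm_of_nonneg (by positivity)] at h1
    simpa [abs_of_pos hx0] using h1
  have hlim : Tendsto (fun x : ℝ => B * x ^ (1 + κ)) (𝓝[>] 0) (𝓝 (B * 0 ^ (1 + κ))) := by
    have h3 : ContinuousAt (fun x : ℝ => x ^ (1 + κ)) 0 :=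
      Real.continuousAt_rpow_const 0 (1 + κ) (Or.inr (by linarith))
    exact (h3.tendsto.mono_left nhdsWithin_le_nhds).const_mul B
  rw [Real.zero_rpow (by linarith), mul_zero] at hlim
  have h4 : ρ / 2 ≤ 0 := by
    refine ge_of_tendsto hlim ?_
    filter_upwards [Ioo_mem_nhdsGT (show (0 : ℝ) < ρ / 2 by positivity)] with x hx
    exact key x hx.1 hx.2
  linarith

end Pool.Agent.K7x.IN
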