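import Pool.Agent.K7x.IN.A
import Pool.Agent.H713R2.Area

/-! # Slow approach: the angles with limits close to `K` -/

set_option autoImplicit false

namespace Pool.Agent.K7x.IN

open Complex Metric Set Filter Topology MeasureTheory
open scoped ENNReal

variable {M K : Set ℂ} {B κ : ℝ} {φ : ℂ → ℂ}

/-- the length of a curve is estimated by its energy -/
theorem seg_len {f f' : ℝ → ℂ} {a b l : ℝ} (hab : a ≤ b) (hl : 0 < l)
    (hf : ∀ x ∈ Icc a b, HasDerivAt f (f' x) x) (hc : ContinuousOn f' (Icc a b)) :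
    ‖f b - f a‖ ≤ l * (b - a) / 2 + (∫ x in a..b, ‖f' x‖ ^ 2) / (2 * l) := by
  have hu : uIcc a b = Icc a b := uIcc_of_le hab
  have hc' : ContinuousOn f' (uIcc a b) := by rwa [hu]
  have h1 : ∫ x in a..b, f' x = f b - f a :=
    intervalIntegral.integral_eq_sub_of_hasDerivAt (fun x hx => hf x (by rwa [hu] at hx))
      hc'.intervalIntegrable
  rw [← h1]
  have hi2 : IntervalIntegrable (fun x => ‖f' x‖ ^ 2 / (2 * l)) volume a b :=
    ((hc'.norm.pow 2).div_const _).intervalIntegrable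
  have h2 : ‖∫ x in a..b, f' x‖ ≤ ∫ x in a..b, ‖f' x‖ :=
    intervalIntegral.norm_integral_le_integral_norm hab
  refine h2.trans ?_
  have h3 : ∫ x in a..b, ‖f' x‖ ≤ ∫ x in a..b, (l / 2 + ‖f' x‖ ^ 2 / (2 * l)) := by
    apply intervalIntegral.integral_mono_on hab hc'.norm.intervalIntegrable
      (intervalIntegrable_const.add hi2)
    intro x _
    have h4 : l / 2 + ‖f' x‖ ^ 2 / (2 * l) - ‖f' x‖ = (‖f' x‖ - l) ^ 2 / (2 * l) := by
      field_simp
      ring
    have h5 : 0 ≤ (‖f' x‖ - l) ^ 2 / (2 * l) := by positivity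
    linarith
  refine h3.trans (le_of_eq ?_)
  rw [intervalIntegral.integral_add intervalIntegrable_const hi2,
    intervalIntegral.integral_const, intervalIntegral.integral_div, smul_eq_mul]
  ring

/-- the speed in logarithmic coordinates -/
noncomputable def sp (φ : ℂ → ℂ) (ζ : ℂ) : ℂ := deriv φ (exp ζ) * exp ζ

/-- the energy of the end of a radius -/
noncomputable def en (φ : ℂ → ℂ) (a t : ℝ) : ℝ≥0∞ :=
  ∫⁻ x in Ioo a 0, ENNReal.ofReal (‖sp φ (x + t * I)‖ ^ 2)

theorem measurable_sp (φ : ℂ → ℂ) : Measurable (sp φ) :=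
  ((measurable_deriv φ).comp Complex.measurable_exp).mul Complex.measurable_exp

theorem measurable_fun (φ : ℂ → ℂ) :
    Measurable fun q : ℝ × ℝ => ENNReal.ofReal (‖sp φ (q.1 + q.2 * I)‖ ^ 2) := by
  apply ENNReal.measurable_ofReal.comp
  apply Measurable.pow_const
  apply Measurable.norm
  apply (measurable_sp φ).comp
  fun_prop

theorem measurable_en (φ : ℂ → ℂ) (a : ℝ) : Measurable (en φ a) := by
  unfold en
  exact Measurable.lintegral_prod_left (measurable_fun φ)

theorem lint_en (hφ : DifferentiableOn ℂ φ (ball 0 1)) (hinj : InjOn φ (ball 0 1))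
    (hM : ∀ t ∈ ball (0 : ℂ) 1, φ t ∈ M) (a : ℝ) :
    ∫⁻ t in Ioc 0 (2 * Real.pi), en φ a t ≤ volume M := by
  have hpi := Real.pi_pos
  set S : Set ℂ := {ζ | ζ.re ∈ Ioo a 0 ∧ ζ.im ∈ Ioc 0 (2 * Real.pi)} with hS
  have hSm : MeasurableSet S := (measurable_re measurableSet_Ioo).inter
    (measurable_im measurableSet_Ioc)
  have hmem : ∀ ζ ∈ S, exp ζ ∈ ball (0 : ℂ) 1 := by
    intro ζ hζ
    rw [mem_ball_zero_iff, norm_exp]
    exact Real.exp_lt_one_iff.2 hζ.1.2
  have hder : ∀ ζ ∈ S, HasFDerivWithinAt (fun ζ => φ (exp ζ))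
      ((ContinuousLinearMap.toSpanSingleton ℂ (sp φ ζ)).restrictScalars ℝ) S ζ := by
    intro ζ hζ
    have h1 : HasDerivAt (fun ζ => φ (exp ζ)) (deriv φ (exp ζ) * exp ζ) ζ :=
      (hφ.differentiableAt (isOpen_ball.mem_nhds (hmem ζ hζ))).hasDerivAt.comp ζ
        (Complex.hasDerivAt_exp ζ)
    exact (h1.hasFDerivAt.restrictScalars ℝ).hasFDerivWithinAt
  have hinjS : InjOn (fun ζ => φ (exp ζ)) S := by
    intro ζ₁ h₁ ζ₂ h₂ h12
    have h3 := hinj (hmem ζ₁ h₁) (hmem ζ₂ h₂) h12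
    obtain ⟨n, hn⟩ := Complex.exp_eq_exp_iff_exists_int.1 h3
    have h4 := h₁.2
    have h5 := h₂.2
    have h6 : ζ₁.im = ζ₂.im + n * (2 * Real.pi) := by
      have := congrArg Complex.im hn
      simpa using this
    have h7 : n = 0 := by
      have h8 : (n : ℝ) < 1 := by
        by_contra h
        nlinarith [h4.2, h5.1, not_lt.1 h]
      have h9 : (-1 : ℝ) < n := by
        by_contra h
        nlinarith [h4.1, h5.2, not_lt.1 h]
      have h8' : n < 1 := by exact_mod_cast h8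
      have h9' : -1 < n := by exact_mod_cast h9
      omega
    rw [hn, h7]
    simp
  have harea := lintegral_abs_det_fderiv_eq_addHaar_image (volume : Measure ℂ) hSm hder hinjS
  simp only [Pool.Agent.H713R2.det_mul_real] at harea
  have himg : volume ((fun ζ => φ (exp ζ)) '' S) ≤ volume M := by
    apply measure_mono
    rintro _ ⟨ζ, hζ, rfl⟩
    exact hM _ (hmem ζ hζ)
  refine le_trans (le_of_eq ?_) himg
  rw [← harea]
  have h1 : S = Complex.measurableEquivRealProd ⁻¹' (Ioo a 0 ×ˢ Ioc 0 (2 * Real.pi)) := by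
    ext ζ; rfl
  have h2 : ∀ ζ : ℂ, ENNReal.ofReal |‖sp φ ζ‖ ^ 2| =
      (fun q : ℝ × ℝ => ENNReal.ofReal (‖sp φ (q.1 + q.2 * I)‖ ^ 2))
        (Complex.measurableEquivRealProd ζ) := by
    intro ζ
    have h3 : Complex.measurableEquivRealProd ζ = (ζ.re, ζ.im) := rfl
    rw [h3]
    simp only [re_add_im]
    rw [abs_of_nonneg (by positivity)]
  have h4 := Complex.volume_preserving_equiv_real_prod.setLIntegral_comp_preimage_emb
    Complex.measurableEquivRealProd.measurableEmbedding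
    (fun q : ℝ × ℝ => ENNReal.ofReal (‖sp φ (q.1 + q.2 * I)‖ ^ 2)) (Ioo a 0 ×ˢ Ioc 0 (2 * Real.pi))
  rw [Measure.volume_eq_prod, setLIntegral_prod_symm _ (measurable_fun φ).aemeasurable] at h4
  simp only [h2]
  rw [h1]
  exact h4.symm

/-- the length of the end of a radius is estimated by its energy -/
theorem le_en (hφ : DifferentiableOn ℂ φ (ball 0 1)) {a t r : ℝ} (ha : a < 0) (hr : 0 < r) {p : ℂ}
    (hp : Tendsto (fun x : ℝ => φ (exp (x + t * I))) (𝓝[<] 0) (𝓝 p))
    (hd : r ≤ ‖p - φ (exp (a + t * I))‖) :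
    ENNReal.ofReal (r ^ 2) ≤ ENNReal.ofReal (-a) * en φ a t := by
  by_cases htop : en φ a t = ⊤
  · rw [htop, ENNReal.mul_top (by rw [ne_eq, ENNReal.ofReal_eq_zero, not_le]; linarith)]
    exact le_top
  set j : ℝ := (en φ a t).toReal with hj
  have hj0 : 0 ≤ j := ENNReal.toReal_nonneg
  have hmem : ∀ x : ℝ, x < 0 → exp ((x : ℂ) + t * I) ∈ ball (0 : ℂ) 1 := by
    intro x hx
    rw [mem_ball_zero_iff, norm_exp]
    simpa using hx
  have hder : ∀ x : ℝ, x < 0 → HasDerivAt (fun x : ℝ => φ (exp (x + t * I))) (sp φ (x + t * I)) x := by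
    intro x hx
    have h1 : HasDerivAt φ (deriv φ (exp (x + t * I))) (exp (x + t * I)) :=
      (hφ.differentiableAt (isOpen_ball.mem_nhds (hmem x hx))).hasDerivAt
    have h2 : HasDerivAt (fun x : ℝ => exp ((x : ℂ) + t * I)) (exp (x + t * I)) x := by
      have h3 : HasDerivAt (fun x : ℝ => (x : ℂ) + t * I) 1 x := by
        simpa using (ofRealCLM.hasDerivAt (x := x)).add_const ((t : ℂ) * I)
      have h4 := (Complex.hasDerivAt_exp ((x : ℂ) + t * I)).comp_of_eq x h3 rfl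
      rw [mul_one] at h4
      exact h4
    exact h1.comp_of_eq x h2 rfl
  have hcont : ∀ b : ℝ, b < 0 → ContinuousOn (fun x : ℝ => sp φ (x + t * I)) (Icc a b) := by
    intro b hb
    unfold sp
    apply ContinuousOn.mul _ (by fun_prop)
    refine (hφ.deriv isOpen_ball).continuousOn.comp (by fun_prop) fun x hx => ?_
    exact hmem x (by linarith [hx.2])
  have hint : ∀ b : ℝ, a ≤ b → b < 0 → ∫ x in a..b, ‖sp φ (x + t * I)‖ ^ 2 ≤ j := by
    intro b hab hb
    have hm : ContinuousOn (fun x : ℝ => ‖sp φ (x + t * I)‖ ^ 2) (Ioc a b) :=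
      ((hcont b hb).norm.pow 2).mono Ioc_subset_Icc_self
    have hnn : ∀ x : ℝ, 0 ≤ ‖sp φ (x + t * I)‖ ^ 2 := fun x => by positivity
    rw [intervalIntegral.integral_of_le hab, integral_eq_lintegral_of_nonneg_ae
      (Eventually.of_forall hnn) (hm.aestronglyMeasurable measurableSet_Ioc)]
    apply ENNReal.toReal_mono htop
    exact lintegral_mono_set fun x hx => ⟨hx.1, lt_of_le_of_lt hx.2 hb⟩
  have hl : 0 < r / (-a) := div_pos hr (by linarith)
  have key : r ≤ r / (-a) * (0 - a) / 2 + j / (2 * (r / (-a))) := by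
    refine hd.trans ?_
    refine le_of_tendsto (hp.sub_const _).norm ?_
    filter_upwards [Ioo_mem_nhdsLT ha] with b hb
    have h1 := seg_len (a := a) (b := b) hb.1.le hl (fun x hx => hder x (by linarith [hx.2, hb.2]))
      (hcont b hb.2)
    refine h1.trans ?_
    have h2 := hint b hb.1.le hb.2
    gcongr
    exact hb.2.le
  have h1 : r ^ 2 ≤ -a * j := by
    have h2 : r / (-a) * (0 - a) / 2 = r / 2 := by
      rw [zero_sub, div_mul_cancel₀ _ (by linarith : -a ≠ 0)]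
    have h3 : j / (2 * (r / (-a))) = -a * j / (2 * r) := by
      have : -a ≠ 0 := by linarith
      field_simp
    rw [h2, h3] at key
    have h4 : r / 2 ≤ -a * j / (2 * r) := by linarith
    rw [le_div_iff₀ (by positivity)] at h4
    nlinarith
  rw [← ENNReal.ofReal_toReal htop, ← ENNReal.ofReal_mul (by linarith)]
  exact ENNReal.ofReal_le_ofReal h1

/-- Radial limits in logarithmic coordinates -/
theorem tendsto_log {t : ℝ} {p : ℂ}
    (hp : Tendsto (fun r : ℝ => φ (r * exp (t * I))) (𝓝[<] 1) (𝓝 p)) :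
    Tendsto (fun x : ℝ => φ (exp (x + t * I))) (𝓝[<] 0) (𝓝 p) := by
  have h1 : Tendsto (fun x : ℝ => Real.exp x) (𝓝[<] 0) (𝓝[<] 1) := by
    apply tendsto_nhdsWithin_of_tendsto_nhds_of_eventually_within
    · have := (Real.continuous_exp.tendsto 0).mono_left (nhdsWithin_le_nhds (s := Iio (0 : ℝ)))
      rwa [Real.exp_zero] at this
    · filter_upwards [self_mem_nhdsWithin] with x hx
      exact Real.exp_lt_one_iff.2 hx
  have h2 := hp.comp h1
  refine h2.congr fun x => ?_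
  simp only [Function.comp_apply, ofReal_exp, Complex.exp_add]

/-- **The harmonic measure of a neighbourhood of `K`.** -/
theorem Slow.vol (h : Slow M K B κ) (hB : 0 < B) (hκ : 0 < κ)
    (hφ : DifferentiableOn ℂ φ (ball 0 1)) (hinj : InjOn φ (ball 0 1))
    (hM : ∀ t ∈ ball (0 : ℂ) 1, φ t ∈ M) (hM4 : M ⊆ closedBall 0 2) (hK4 : K ⊆ closedBall 0 2)
    {δ r : ℝ} (hr : 0 < r)
    (hrδ : 2 * r ≤ δ) (hδ : ∀ c ∈ K, δ ≤ ‖φ 0 - c‖) :
    volume {t : ℝ | t ∈ Ioc 0 (2 * Real.pi) ∧ ∃ p : ℂ,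
      Tendsto (fun r : ℝ => φ (r * exp (t * I))) (𝓝[<] 1) (𝓝 p) ∧ ∃ c ∈ K, ‖p - c‖ < r} ≤
    ENNReal.ofReal (16 * Real.pi / r ^ 2 *
      Real.exp (-(((2 * r) ^ (-κ) - δ ^ (-κ)) / (κ * B)))) := by
  have hpi := Real.pi_pos
  set E : Set ℝ := {t : ℝ | t ∈ Ioc 0 (2 * Real.pi) ∧ ∃ p : ℂ,
      Tendsto (fun r : ℝ => φ (r * exp (t * I))) (𝓝[<] 1) (𝓝 p) ∧ ∃ c ∈ K, ‖p - c‖ < r} with hE
  set q : ℝ := ((2 * r) ^ (-κ) - δ ^ (-κ)) / (κ * B) with hq
  have hκB : 0 < κ * B := by positivity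
  have hq0 : 0 ≤ q := by
    apply div_nonneg _ hκB.le
    rw [sub_nonneg]
    exact Real.rpow_le_rpow_of_nonpos (by positivity) hrδ (by linarith)
  have hexp0 := Real.exp_pos (-q)
  rcases E.eq_empty_or_nonempty with hEe | ⟨t₀, -, p₀, hp₀, c₀, hc₀, -⟩
  · rw [hEe]; simp
  -- `r ≤ 2`
  have hφ0 : ‖φ 0‖ ≤ 2 := mem_closedBall_zero_iff.1 (hM4 (hM 0 (mem_ball_self one_pos)))
  have htriv : volume E ≤ ENNReal.ofReal (2 * Real.pi) := by
    have h1 : E ⊆ Ioc 0 (2 * Real.pi) := fun t ht => ht.1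
    refine (measure_mono h1).trans ?_
    rw [Real.volume_Ioc, sub_zero]
  by_cases hbig : 1 / 2 ≤ Real.exp (-q)
  · -- the trivial bound
    refine htriv.trans (ENNReal.ofReal_le_ofReal ?_)
    have hc₀2 : ‖c₀‖ ≤ 2 := mem_closedBall_zero_iff.1 (hK4 hc₀)
    have hr2 : r ≤ 2 := by
      have h1 := hδ c₀ hc₀
      have h2 := norm_sub_le (φ 0) c₀
      linarith
    rw [div_mul_eq_mul_div, le_div_iff₀ (by positivity)]
    have h3 : r ^ 2 ≤ 4 := by nlinarith
    nlinarith
  rw [not_le] at hbig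
  set s : ℝ := 1 - Real.exp (-q) with hs
  have hs0 : 1 / 2 < s := by rw [hs]; linarith
  have hs1 : s < 1 := by rw [hs]; linarith
  set a : ℝ := Real.log s with ha
  have ha0 : a < 0 := Real.log_neg (by linarith) hs1
  have haa : -a ≤ 2 * Real.exp (-q) := by
    have h1 := Real.one_sub_inv_le_log_of_pos (show 0 < s by linarith)
    have h2 : s⁻¹ - 1 ≤ 2 * Real.exp (-q) := by
      have h3 : s⁻¹ - 1 = Real.exp (-q) / s := by
        rw [hs]
        have : 1 - Real.exp (-q) ≠ 0 := by rw [← hs]; linarith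
        field_simp
        ring
      rw [h3, div_le_iff₀ (by linarith)]
      nlinarith
    linarith
  have hfar : ∀ t : ℝ, ∀ c ∈ K, 2 * r ≤ ‖φ (exp (a + t * I)) - c‖ := by
    intro t c hc
    have hz : ‖exp ((a : ℂ) + t * I)‖ = s := by
      rw [norm_exp]
      simp [ha, Real.exp_log (show 0 < s by linarith)]
    have hz1 : exp ((a : ℂ) + t * I) ∈ ball (0 : ℂ) 1 := by rw [mem_ball_zero_iff, hz]; exact hs1
    have hδ0 : 0 < δ := by linarith
    have hne : φ 0 ≠ c := by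
      have := hδ c hc
      intro h0
      rw [h0, sub_self, norm_zero] at this
      linarith
    obtain ⟨h1, h2⟩ := h.rate hB.le hκ hφ hM hc hne hz1
    rw [hz, show 1 - s = Real.exp (-q) by rw [hs]; ring, Real.log_exp, neg_neg, hq,
      mul_div_cancel₀ _ hκB.ne'] at h2
    have h3 : ‖φ 0 - c‖ ^ (-κ) ≤ δ ^ (-κ) :=
      Real.rpow_le_rpow_of_nonpos hδ0 (hδ c hc) (by linarith)
    have h4 : ‖φ (exp (a + t * I)) - c‖ ^ (-κ) ≤ (2 * r) ^ (-κ) := by linarith
    by_contra hcon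
    rw [not_le] at hcon
    have h5 := Real.rpow_lt_rpow_of_neg (norm_pos_iff.2 (sub_ne_zero.2 h1)) hcon
      (show -κ < 0 by linarith)
    linarith
  have hsub : E ⊆ {t | t ∈ Ioc 0 (2 * Real.pi) ∧
      ENNReal.ofReal (r ^ 2) ≤ ENNReal.ofReal (-a) * en φ a t} := by
    rintro t ⟨ht, p, hp, c, hc, hpc⟩
    refine ⟨ht, le_en hφ ha0 hr (tendsto_log hp) ?_⟩
    have h1 := hfar t c hc
    have h2 : ‖φ (exp (a + t * I)) - c‖ ≤ ‖p - φ (exp (a + t * I))‖ + ‖p - c‖ := by
      rw [← dist_eq_norm, ← dist_eq_norm, ← dist_eq_norm]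
      calc dist (φ (exp (a + t * I))) c ≤ dist (φ (exp (a + t * I))) p + dist p c :=
            dist_triangle _ _ _
        _ = _ := by rw [dist_comm (φ (exp (a + t * I))) p]
    linarith
  have hmar := mul_meas_ge_le_lintegral (μ := volume.restrict (Ioc 0 (2 * Real.pi)))
    ((measurable_en φ a).const_mul (ENNReal.ofReal (-a))) (ENNReal.ofReal (r ^ 2))
  rw [lintegral_const_mul _ (measurable_en φ a)] at hmar
  have hset : volume.restrict (Ioc 0 (2 * Real.pi))
      {t | ENNReal.ofReal (r ^ 2) ≤ ENNReal.ofReal (-a) * en φ a t} =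
      volume {t | t ∈ Ioc 0 (2 * Real.pi) ∧
        ENNReal.ofReal (r ^ 2) ≤ ENNReal.ofReal (-a) * en φ a t} := by
    rw [Measure.restrict_apply (measurableSet_le measurable_const
      ((measurable_en φ a).const_mul _))]
    congr 1
    ext t
    exact and_comm
  rw [hset] at hmar
  have hM2 : volume M ≤ ENNReal.ofReal (4 * Real.pi) := by
    refine (measure_mono hM4).trans ?_
    rw [Complex.volume_closedBall, ← ENNReal.ofReal_pow (by positivity)]
    have h1 : (NNReal.pi : ENNReal) = ENNReal.ofReal Real.pi := by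
      rw [ENNReal.ofReal, ← NNReal.coe_real_pi, Real.toNNReal_coe]
    rw [h1, ← ENNReal.ofReal_mul (by positivity)]
    apply ENNReal.ofReal_le_ofReal
    nlinarith
  have hfin : ENNReal.ofReal (r ^ 2) * volume E ≤
      ENNReal.ofReal (2 * Real.exp (-q) * (4 * Real.pi)) := by
    calc ENNReal.ofReal (r ^ 2) * volume E ≤ _ := by gcongr
      _ ≤ _ := hmar
      _ ≤ ENNReal.ofReal (-a) * ENNReal.ofReal (4 * Real.pi) := by
          gcongr
          exact (lint_en hφ hinj hM a).trans hM2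
      _ = ENNReal.ofReal (-a * (4 * Real.pi)) := by
          rw [← ENNReal.ofReal_mul (by linarith)]
      _ ≤ _ := by
          apply ENNReal.ofReal_le_ofReal
          gcongr
  have hvfin : volume E ≠ ⊤ := ne_top_of_le_ne_top ENNReal.ofReal_ne_top htriv
  rw [← ENNReal.ofReal_toReal hvfin, ← ENNReal.ofReal_mul (by positivity),
    ENNReal.ofReal_le_ofReal_iff (by positivity)] at hfin
  rw [← ENNReal.ofReal_toReal hvfin]
  apply ENNReal.ofReal_le_ofReal
  have hr2 : 0 < r ^ 2 := by positivity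
  rw [div_mul_eq_mul_div, le_div_iff₀ hr2]
  nlinarith [mul_pos hpi hexp0]

end Pool.Agent.K7x.IN
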