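import Pool.Agent.K7x.IN.B
import Pool.Agent.N673.QC.MakC
import Pool.Agent.Helper240.ZFM.Q2b

/-! # Slow approach: almost no radial limit lies in `K`; the image is fat at almost all limits -/

set_option autoImplicit false

namespace Pool.Agent.K7x.IN

open Complex Metric Set Filter Topology MeasureTheory
open scoped ENNReal

variable {M K : Set ℂ} {B κ : ℝ} {φ : ℂ → ℂ}

/-- `c` is the radial limit of `φ` at the angle `t`. -/
def RadialLimit (φ : ℂ → ℂ) (t : ℝ) (c : ℂ) : Prop :=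
  Tendsto (fun r : ℝ => φ (r * exp (t * I))) (𝓝[<] 1) (𝓝 c)

theorem radial_eq (φ : ℂ → ℂ) (t : ℝ) : (fun r : ℝ => φ (r * exp (t * I))) =
    fun r : ℝ => φ (Pool.Agent.W677.Mar.pt r t) := by
  funext r
  unfold Pool.Agent.W677.Mar.pt circleMap
  rw [zero_add]

theorem radial_periodic (φ : ℂ → ℂ) (t : ℝ) (c : ℂ) :
    RadialLimit φ (t + 2 * Real.pi) c ↔ RadialLimit φ t c := by
  unfold RadialLimit
  rw [radial_eq, radial_eq]
  simp only [Pool.Agent.W677.Mar.pt_periodic _ t]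

/-- Koebe's one-quarter theorem at all points of the disc -/
theorem koebe (hφ : DifferentiableOn ℂ φ (ball 0 1)) (hinj : InjOn φ (ball 0 1)) {z : ℂ}
    (hz : z ∈ ball (0 : ℂ) 1) :
    ball (φ z) ((1 - ‖z‖) * ‖deriv φ z‖ / 4) ⊆ φ '' ball 0 1 := by
  have hz1 : ‖z‖ < 1 := mem_ball_zero_iff.1 hz
  intro w hw
  by_contra hcon
  set γ : ℂ → ℂ := fun u => φ (z + ((1 - ‖z‖ : ℝ) : ℂ) * u) - φ z with hγ
  have hd : DifferentiableOn ℂ γ (ball 0 1) := by
    refine DifferentiableOn.sub_const ?_ _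
    refine hφ.comp (Differentiable.differentiableOn (by fun_prop)) fun w hw => mem_disc hz hw
  have hi : InjOn γ (ball 0 1) := by
    intro u hu v hv huv
    have h1 := hinj (mem_disc hz hu) (mem_disc hz hv) (sub_left_injective huv)
    have h2 : ((1 - ‖z‖ : ℝ) : ℂ) ≠ 0 := by
      have : (1 - ‖z‖ : ℝ) ≠ 0 := by linarith
      exact_mod_cast this
    exact mul_left_cancel₀ h2 (add_left_cancel h1)
  have h0 : γ 0 = 0 := by rw [hγ]; simp
  have h1 := ZFM.koebe_quarter hd hi h0 (v := w - φ z) (by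
    intro u hu h
    apply hcon
    exact ⟨_, mem_disc hz hu, sub_left_injective h⟩)
  have h2 : HasDerivAt γ (deriv φ z * ((1 - ‖z‖ : ℝ) : ℂ)) 0 := by
    have h3 : HasDerivAt (fun w : ℂ => z + ((1 - ‖z‖ : ℝ) : ℂ) * w) ((1 - ‖z‖ : ℝ) : ℂ) 0 := by
      simpa using ((hasDerivAt_id (0 : ℂ)).const_mul ((1 - ‖z‖ : ℝ) : ℂ)).const_add z
    have h4 : HasDerivAt φ (deriv φ z) (z + ((1 - ‖z‖ : ℝ) : ℂ) * 0) := by
      rw [mul_zero, add_zero]
      exact (hφ.differentiableAt (isOpen_ball.mem_nhds hz)).hasDerivAt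
    exact (h4.comp (0 : ℂ) h3).sub_const _
  rw [h2.deriv, norm_mul, Complex.norm_real, Real.norm_of_nonneg (by linarith)] at h1
  rw [mem_ball, dist_eq_norm] at hw
  linarith

/-- The set `S` contains large discs close to `p`, at all small scales. -/
def Fat (S : Set ℂ) (p : ℂ) : Prop :=
  ∀ ε : ℝ, 0 < ε → ∀ᶠ s : ℝ in 𝓝[>] 0, ∃ a : ℂ, ball a (s ^ (1 + ε)) ⊆ S ∩ ball p s

theorem Fat.mono {S T : Set ℂ} {p : ℂ} (h : Fat S p) (hST : S ⊆ T) : Fat T p := by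
  intro ε hε
  filter_upwards [h ε hε] with s hs
  obtain ⟨a, ha⟩ := hs
  exact ⟨a, ha.trans (inter_subset_inter_left _ hST)⟩

open Pool.Agent.W677.Mar (pt norm_pt) in
/-- **The image of a univalent function is fat at almost all radial limits.** -/
theorem fat_of_mem_G (hφ : DifferentiableOn ℂ φ (ball 0 1)) (hinj : InjOn φ (ball 0 1)) {t : ℝ}
    (ht0 : t ∈ Ioc 0 (2 * Real.pi))
    (ht : ∀ ε : ℝ, 0 < ε → ∃ N : ℕ, 1 ≤ N ∧
      ∀ r ∈ Ico (1 - (1 / 2 : ℝ) ^ N) 1, (1 - r) ^ ε ≤ ‖deriv φ (pt r t)‖ ∧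
        ‖deriv φ (pt r t)‖ ≤ (1 - r) ^ (-ε)) :
    ∃ p : ℂ, RadialLimit φ t p ∧ Fat (φ '' ball 0 1) p := by
  obtain ⟨p, hp⟩ : ∃ p : ℂ, RadialLimit φ t p := by
    obtain ⟨N, hN, h⟩ := ht (1 / 2) (by norm_num)
    obtain ⟨p, hp⟩ := Pool.Agent.N673.Mak.exists_limit hφ hN le_rfl
      (show t ∈ Pool.Agent.N673.Mak.G φ (1 / 2) N from ⟨ht0, h⟩)
    refine ⟨p, ?_⟩
    unfold RadialLimit
    rw [radial_eq]
    exact hp
  refine ⟨p, hp, fun ε hε => ?_⟩
  have hp' := hp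
  unfold RadialLimit at hp'
  rw [radial_eq] at hp'
  -- the exponent
  obtain ⟨e, he0, he1, he2⟩ : ∃ e : ℝ, 0 < e ∧ e ≤ 1 / 2 ∧ (1 + e) < (1 + ε) * (1 - e) := by
    refine ⟨min (1 / 2) (ε / (2 * (2 + ε))), by positivity, min_le_left _ _, ?_⟩
    have h1 : min (1 / 2) (ε / (2 * (2 + ε))) ≤ ε / (2 * (2 + ε)) := min_le_right _ _
    have h2 : ε / (2 * (2 + ε)) * (2 + ε) = ε / 2 := by field_simp
    have h3 : min (1 / 2) (ε / (2 * (2 + ε))) * (2 + ε) ≤ ε / 2 := by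
      rw [← h2]
      exact mul_le_mul_of_nonneg_right h1 (by positivity)
    linarith
  obtain ⟨N, hN, h⟩ := ht e he0
  have hG : t ∈ Pool.Agent.N673.Mak.G φ e N := ⟨ht0, h⟩
  -- the scale: `2 (1 - r) ^ (1 - e) = s / 2`
  set b : ℝ := (1 - e)⁻¹ with hb
  have hb0 : 0 < b := inv_pos.2 (by linarith)
  have hbe : (1 - e) * b = 1 := mul_inv_cancel₀ (by linarith)
  have hexp : (1 + e) * b < 1 + ε := by
    rw [hb, ← div_eq_mul_inv, div_lt_iff₀ (by linarith)]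
    exact he2
  have hlim1 : Tendsto (fun s : ℝ => (s / 4) ^ b) (𝓝[>] 0) (𝓝 0) := by
    have h1 : ContinuousAt (fun s : ℝ => (s / 4) ^ b) 0 :=
      (continuousAt_id.div_const 4).rpow_const (Or.inr hb0.le)
    have h2 := h1.tendsto
    simp only [zero_div, Real.zero_rpow hb0.ne'] at h2
    exact h2.mono_left nhdsWithin_le_nhds
  have hlim2 : Tendsto (fun s : ℝ => 4 * 4 ^ ((1 + e) * b) * s ^ (1 + ε - (1 + e) * b)) (𝓝[>] 0)
      (𝓝 0) := by
    have h1 : ContinuousAt (fun s : ℝ => s ^ (1 + ε - (1 + e) * b)) 0 :=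
      Real.continuousAt_rpow_const _ _ (Or.inr (by linarith))
    have h2 := (h1.tendsto.mono_left (nhdsWithin_le_nhds (s := Ioi (0 : ℝ)))).const_mul
      ((4 : ℝ) * 4 ^ ((1 + e) * b))
    rw [Real.zero_rpow (by linarith), mul_zero] at h2
    exact h2
  have hhalf : (0 : ℝ) < (1 / 2) ^ N := by positivity
  have hhalf1 : ((1 : ℝ) / 2) ^ N ≤ 1 := pow_le_one₀ (by norm_num) (by norm_num)
  have hlim3 : Tendsto (fun s : ℝ => s ^ ε) (𝓝[>] 0) (𝓝 0) := by
    have h1 : ContinuousAt (fun s : ℝ => s ^ ε) 0 :=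
      Real.continuousAt_rpow_const _ _ (Or.inr hε.le)
    have h2 := h1.tendsto.mono_left (nhdsWithin_le_nhds (s := Ioi (0 : ℝ)))
    rwa [Real.zero_rpow hε.ne'] at h2
  filter_upwards [self_mem_nhdsWithin, hlim1.eventually_lt_const hhalf,
    hlim2.eventually_lt_const one_pos, hlim3.eventually_lt_const (show (0 : ℝ) < 1 / 2 by norm_num)]
    with s hs0 hs1 hs2 hs3
  have hs0' : (0 : ℝ) < s := hs0
  set r : ℝ := 1 - (s / 4) ^ b with hr
  have hrr : 1 - r = (s / 4) ^ b := by rw [hr]; ring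
  have hpos : 0 < (s / 4) ^ b := by positivity
  have hr1 : r < 1 := by linarith
  have hrN : 1 - (1 / 2 : ℝ) ^ N ≤ r := by linarith
  have hr0 : 0 ≤ r := by linarith
  obtain ⟨h1, -⟩ := h r ⟨hrN, hr1⟩
  have h2 := Pool.Agent.N673.Mak.dist_limit hφ hN he1 hG hp' hrN hr1
  have hz : pt r t ∈ ball (0 : ℂ) 1 := by
    rw [mem_ball_zero_iff, norm_pt r t hr0]
    exact hr1
  have h3 := koebe hφ hinj hz
  rw [norm_pt r t hr0, hrr] at h3
  rw [hrr] at h1 h2
  have h4 : ((s / 4) ^ b) ^ (1 - e) = s / 4 := by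
    rw [← Real.rpow_mul (by positivity), mul_comm, hbe, Real.rpow_one]
  rw [h4] at h2
  have h5 : s ^ (1 + ε) ≤ (s / 4) ^ b * ‖deriv φ (pt r t)‖ / 4 := by
    have h6 : ((s / 4) ^ b) ^ (1 + e) ≤ (s / 4) ^ b * ‖deriv φ (pt r t)‖ := by
      rw [Real.rpow_add hpos, Real.rpow_one]
      exact mul_le_mul_of_nonneg_left h1 hpos.le
    have h7 : 4 * s ^ (1 + ε) ≤ ((s / 4) ^ b) ^ (1 + e) := by
      rw [← Real.rpow_mul (by positivity), mul_comm b, Real.div_rpow hs0'.le (by norm_num),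
        le_div_iff₀ (by positivity)]
      have h8 : s ^ (1 + ε) = s ^ (1 + ε - (1 + e) * b) * s ^ ((1 + e) * b) := by
        rw [← Real.rpow_add hs0']
        congr 1
        ring
      rw [h8]
      have h9 : 0 < s ^ ((1 + e) * b) := by positivity
      nlinarith
    linarith
  have h6 : s ^ (1 + ε) ≤ s / 2 := by
    rw [Real.rpow_add hs0', Real.rpow_one]
    nlinarith
  refine ⟨φ (pt r t), subset_inter ((ball_subset_ball h5).trans h3) ?_⟩
  intro w hw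
  rw [mem_ball] at hw ⊢
  calc dist w p ≤ dist w (φ (pt r t)) + dist (φ (pt r t)) p := dist_triangle _ _ _
    _ < s := by
      rw [dist_comm (φ (pt r t)) p, dist_eq_norm p]
      linarith

theorem ae_fat_Ioc (hφ : DifferentiableOn ℂ φ (ball 0 1)) (hinj : InjOn φ (ball 0 1)) :
    ∀ᵐ t : ℝ ∂(volume.restrict (Ioc 0 (2 * Real.pi))),
      ∃ p : ℂ, RadialLimit φ t p ∧ Fat (φ '' ball 0 1) p := by
  filter_upwards [Pool.Agent.N673.Mak.growth_Ioc hφ hinj, ae_restrict_mem measurableSet_Ioc]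
    with t h1 h2
  exact fat_of_mem_G hφ hinj h2 h1

/-- **The points of `K` are thin.** -/
theorem Slow.thin (h : Slow M K B κ) (hB : 0 ≤ B) (hκ : 0 < κ) {c : ℂ} (hc : c ∈ K) {s ρ : ℝ}
    {a : ℂ} (hρ : 0 < ρ) (ha : ball a ρ ⊆ M ∩ ball c s) : ρ ≤ B * s ^ (1 + κ) := by
  have haM : ball a ρ ⊆ M := ha.trans inter_subset_left
  have hac : a ≠ c := by
    rintro rfl
    exact h.not_interior hκ hc (mem_interior.2 ⟨ball a ρ, haM, isOpen_ball, mem_ball_self hρ⟩)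
  have h1 := h (fun w => a + (ρ : ℂ) * w) (by fun_prop) (by
    intro t ht
    apply haM
    rw [mem_ball_zero_iff] at ht
    rw [mem_ball, dist_eq_norm, add_sub_cancel_left, norm_mul, Complex.norm_real,
      Real.norm_of_nonneg hρ.le]
    nlinarith) c hc (by simpa using hac)
  have h2 : HasDerivAt (fun w : ℂ => a + (ρ : ℂ) * w) (ρ : ℂ) 0 := by
    simpa using ((hasDerivAt_id (0 : ℂ)).const_mul (ρ : ℂ)).const_add a
  rw [h2.deriv, Complex.norm_real, Real.norm_of_nonneg hρ.le] at h1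
  simp only [mul_zero, add_zero] at h1
  refine h1.trans (mul_le_mul_of_nonneg_left ?_ hB)
  have h3 : ‖a - c‖ ≤ s := by
    have := (ha (mem_ball_self hρ)).2
    rw [mem_ball, dist_eq_norm] at this
    exact this.le
  exact Real.rpow_le_rpow (norm_nonneg _) h3 (by linarith)

/-- The points of `K` are not fat. -/
theorem Slow.not_fat (h : Slow M K B κ) (hB : 0 ≤ B) (hκ : 0 < κ) {c : ℂ} (hc : c ∈ K) :
    ¬ Fat M c := by
  intro hf
  have h1 := hf (κ / 2) (by positivity)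
  have hlim : Tendsto (fun s : ℝ => B * s ^ (κ / 2)) (𝓝[>] 0) (𝓝 0) := by
    have h2 : ContinuousAt (fun s : ℝ => s ^ (κ / 2)) 0 :=
      Real.continuousAt_rpow_const _ _ (Or.inr (by positivity))
    have h3 := (h2.tendsto.mono_left (nhdsWithin_le_nhds (s := Ioi (0 : ℝ)))).const_mul B
    rwa [Real.zero_rpow (by positivity), mul_zero] at h3
  have hmem : ∀ᶠ s : ℝ in 𝓝[>] 0, (0 : ℝ) < s := self_mem_nhdsWithin
  obtain ⟨s, ⟨a, ha⟩, hs0', hs1⟩ := (h1.and (hmem.and (hlim.eventually_lt_const one_pos))).exists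
  have h4 := h.thin hB hκ hc (by positivity) ha
  have h5 : s ^ (1 + κ) = s ^ (κ / 2) * s ^ (1 + κ / 2) := by
    rw [← Real.rpow_add hs0']
    congr 1
    ring
  rw [h5] at h4
  have h6 : 0 < s ^ (1 + κ / 2) := by positivity
  nlinarith

/-- **Almost no radial limit lies in `K`.** -/
theorem Slow.null_Ioc (h : Slow M K B κ) (hB : 0 ≤ B) (hκ : 0 < κ)
    (hφ : DifferentiableOn ℂ φ (ball 0 1)) (hinj : InjOn φ (ball 0 1))
    (hM : ∀ t ∈ ball (0 : ℂ) 1, φ t ∈ M) : ∀ᵐ t : ℝ ∂(volume.restrict (Ioc 0 (2 * Real.pi))),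
      ∀ c ∈ K, ¬ RadialLimit φ t c := by
  filter_upwards [ae_fat_Ioc hφ hinj] with t ht c hc hcon
  obtain ⟨p, hp, hf⟩ := ht
  have : c = p := tendsto_nhds_unique hcon hp
  subst this
  exact h.not_fat hB hκ hc (hf.mono (image_subset_iff.2 hM))

end Pool.Agent.K7x.IN
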