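import Pool.Prelude.Def_F_c31e40fa
import Pool.Agent.K7x.IN.C
import Pool.Agent.Y298.CD.Fin
import Pool.Agent.Y298.CA.Sca
import Pool.Agent.Y674.CA.Lya

/-! # Discs in the Multibrot set are slow near the Collet-Eckmann parameters -/

set_option autoImplicit false

namespace Pool.Agent.K7x.IN

open Complex Metric Set Filter Topology MeasureTheory N62a1eb23

variable {d : ℕ}

/-- The Collet-Eckmann parameters of the Multibrot set with the constants `C₁`, `lam`. -/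
def CE (d : ℕ) (C₁ lam : ℝ) : Set ℂ :=
  {c | c ∈ multibrotSet d ∧ ∀ n : ℕ, lam ^ n ≤ C₁ * ‖deriv ((fun z : ℂ => z ^ d + c)^[n]) c‖}

theorem slow_ce (hd : 2 ≤ d) {C₁ lam κ : ℝ} (hC₁ : 1 ≤ C₁) (hlam : 1 < lam) (hκ : 0 < κ)
    (hκ1 : κ * (d * Real.log (2 * d) - Real.log lam) < Real.log lam) :
    ∃ B : ℝ, 0 < B ∧ Slow (multibrotSet d) (CE d C₁ lam) B κ := by
  have hdR : (2 : ℝ) ≤ d := by exact_mod_cast hd
  have hd1 : 0 < (d : ℝ) - 1 := by linarith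
  have hlog : 0 < Real.log (2 * d) := Real.log_pos (by linarith)
  have hll : 0 < Real.log lam := Real.log_pos hlam
  by_cases hle : lam ≤ 2 * d
  · have hle' : Real.log lam ≤ Real.log (2 * d) := Real.log_le_log (by linarith) hle
    set q : ℝ := Real.log lam / Real.log (2 * d) with hq
    have hq1 : q ≤ 1 := (div_le_one hlog).2 hle'
    have hq0 : 0 < q := div_pos hll hlog
    set β : ℝ := (1 - q) / ((d : ℝ) - 1) with hβ
    have hβ0 : 0 ≤ β := div_nonneg (by linarith) hd1.le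
    set t : ℝ := (1 + κ) * ((d : ℝ) - 1) / d with ht
    have ht0 : 0 ≤ t := by positivity
    have hκq : κ * (d - q) < q := by
      have h2 : Real.log lam = q * Real.log (2 * d) := (div_mul_cancel₀ _ hlog.ne').symm
      rw [h2] at hκ1
      have h1 : κ * (d * Real.log (2 * d) - q * Real.log (2 * d)) =
          κ * (d - q) * Real.log (2 * d) := by ring
      rw [h1] at hκ1
      exact lt_of_mul_lt_mul_right hκ1 hlog.le
    have ht1 : t * (1 + β) < 1 := by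
      have h1 : t * (1 + β) = (1 + κ) * (d - q) / d := by
        rw [ht, hβ]; field_simp; ring
      rw [h1, div_lt_one (by linarith)]
      nlinarith
    obtain ⟨C, hC, H⟩ := Pool.Agent.Y298.SH.CD.upper_uniform hd C₁ lam
      (C₂ := (d * C₁) ^ (((d : ℝ) - 1)⁻¹)) (by positivity) hβ0 ht0 ht1
    refine ⟨C, hC, ?_⟩
    intro γ hγ hγM c hc hne
    have hce := Pool.Agent.Y298.SH.CD.cep_of_mem hd hC₁ hlam hc.1 hc.2
    have h1 := (H c hce hce.recB (γ 0) (hγM 0 (mem_ball_self one_pos)) hne).2 γ hγ hγM rfl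
    have h2 : (d : ℝ) * t / ((d : ℝ) - 1) = 1 + κ := by rw [ht]; field_simp
    rwa [h2] at h1
  · refine ⟨1, one_pos, ?_⟩
    intro γ hγ hγM c hc hne
    exact absurd (Pool.Agent.Y298.SH.CD.cep_of_mem hd hC₁ hlam hc.1 hc.2).lam_le hle

theorem slow_lyap (hd : 2 ≤ d) {χ κ : ℝ} {c₀ : ℂ} (hχ : 0 < χ) (hc₀ : c₀ ∈ multibrotSet d)
    (hlim : Tendsto (fun n : ℕ => Real.log ‖deriv ((fun z : ℂ => z ^ d + c₀)^[n]) c₀‖ / n) atTop
      (𝓝 χ)) (hκ : 0 < κ) (hκ1 : κ < 1 / ((d : ℝ) - 1)) :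
    ∃ B : ℝ, 0 < B ∧ Slow (multibrotSet d) {c₀} B κ := by
  have hdR : (2 : ℝ) ≤ d := by exact_mod_cast hd
  have hd1 : 0 < (d : ℝ) - 1 := by linarith
  have h : Pool.Agent.Y298.CA.Lyap d χ c₀ := ⟨hχ, hc₀, hlim⟩
  obtain ⟨⟨C₁, lam, hce⟩, -⟩ := Pool.Agent.Y674.CA.lya d χ c₀ hd h
  rw [lt_div_iff₀ hd1] at hκ1
  set t : ℝ := (1 + κ) * ((d : ℝ) - 1) / d with ht
  have ht0 : 0 < t := by positivity
  have htlt : t < 1 := by
    rw [ht, div_lt_one (by linarith)]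
    nlinarith
  obtain ⟨b, hb0, hb1⟩ : ∃ b : ℝ, 0 < b ∧ t * (1 + b) < 1 := by
    refine ⟨(1 - t) / 2, by linarith, ?_⟩
    nlinarith
  obtain ⟨C₂, hC₂, hrec⟩ := Pool.Agent.Y298.CA.rec_of_lya Pool.Agent.Y674.CA.lya hd h hb0
  obtain ⟨C, hC, H⟩ := Pool.Agent.Y298.SH.CD.upper_uniform hd C₁ lam hC₂ hb0.le ht0.le hb1
  refine ⟨C, hC, ?_⟩
  intro γ hγ hγM c hc hne
  rw [mem_singleton_iff] at hc
  subst hc
  have h1 := (H c hce hrec (γ 0) (hγM 0 (mem_ball_self one_pos)) hne).2 γ hγ hγM rfl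
  have h2 : (d : ℝ) * t / ((d : ℝ) - 1) = 1 + κ := by rw [ht]; field_simp
  rwa [h2] at h1

/-- parameters with a Lyapunov exponent are Collet-Eckmann parameters -/
theorem ce_of_lyap (hd : 2 ≤ d) {χ : ℝ} {c₀ : ℂ} (hχ : 0 < χ) (hc₀ : c₀ ∈ multibrotSet d)
    (hlim : Tendsto (fun n : ℕ => Real.log ‖deriv ((fun z : ℂ => z ^ d + c₀)^[n]) c₀‖ / n) atTop
      (𝓝 χ)) : ∃ C₁ lam : ℝ, 1 ≤ C₁ ∧ 1 < lam ∧ c₀ ∈ CE d C₁ lam := by
  obtain ⟨⟨C₁, lam, hce⟩, -⟩ := Pool.Agent.Y674.CA.lya d χ c₀ hd ⟨hχ, hc₀, hlim⟩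
  exact ⟨C₁, lam, hce.C1, hce.lam1, hc₀, hce.exp⟩

theorem exists_kappa (hd : 2 ≤ d) {lam : ℝ} (hlam : 1 < lam) :
    ∃ κ : ℝ, 0 < κ ∧ κ * (d * Real.log (2 * d) - Real.log lam) < Real.log lam := by
  have hdR : (2 : ℝ) ≤ d := by exact_mod_cast hd
  have hlog : 0 < Real.log (2 * d) := Real.log_pos (by linarith)
  have hll : 0 < Real.log lam := Real.log_pos hlam
  have hX : 0 < (d : ℝ) * Real.log (2 * d) := by positivity
  refine ⟨Real.log lam / (d * Real.log (2 * d)), div_pos hll hX, ?_⟩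
  rw [mul_sub, div_mul_cancel₀ _ hX.ne']
  have : 0 < Real.log lam / (d * Real.log (2 * d)) * Real.log lam := by positivity
  linarith

/-- every Collet-Eckmann parameter belongs to a class with integral constants -/
theorem ce_nat {c : ℂ} {C₁ lam : ℝ} (hlam : 1 < lam) (hc : c ∈ CE d C₁ lam) :
    ∃ n : ℕ, c ∈ CE d (n + 1) (1 + 1 / (n + 1)) := by
  obtain ⟨n₁, hn₁⟩ := exists_nat_gt C₁
  obtain ⟨n₂, hn₂⟩ := exists_nat_gt (1 / (lam - 1))
  have hl : 0 < lam - 1 := by linarith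
  refine ⟨max n₁ n₂, hc.1, fun m => ?_⟩
  have h1 : (n₁ : ℝ) ≤ (max n₁ n₂ : ℕ) := by exact_mod_cast le_max_left _ _
  have h2 : (n₂ : ℝ) ≤ (max n₁ n₂ : ℕ) := by exact_mod_cast le_max_right _ _
  generalize (max n₁ n₂ : ℕ) = N at h1 h2 ⊢
  have h3 : 1 + 1 / ((N : ℝ) + 1) ≤ lam := by
    have h4 : 1 / ((N : ℝ) + 1) ≤ lam - 1 := by
      rw [div_le_iff₀ (by positivity)]
      rw [div_lt_iff₀ hl] at hn₂
      nlinarith
    linarith
  calc (1 + 1 / ((N : ℝ) + 1)) ^ m ≤ lam ^ m := by gcongr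
    _ ≤ C₁ * ‖deriv ((fun z : ℂ => z ^ d + c)^[m]) c‖ := hc.2 m
    _ ≤ _ := by
      gcongr
      linarith

end Pool.Agent.K7x.IN
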