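import Pool.Agent.K7x.IN.D
import Pool.Agent.R243.HD.RM
import Pool.Agent.N673.QC.Bdry
import Pool.Agent.Y272.GA.Brg

/-! # Components of the interior of the Multibrot set: conformal maps, fat boundary points -/

set_option autoImplicit false

namespace Pool.Agent.K7x.IN

open Complex Metric Set Filter Topology MeasureTheory N62a1eb23
open Pool.Agent.H713R2 (IsExteriorMap exists_beta exteriorMap_of_beta)
open Pool.Agent.N673.QC (IsComp)

variable {d : ℕ}

theorem isConnected_out : IsConnected {z : ℂ | 1 < ‖z‖} := by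
  have h1 : {z : ℂ | 1 < ‖z‖} = exp '' {ζ : ℂ | 0 < ζ.re} := by
    ext z
    constructor
    · intro hz
      have hz' : 1 < ‖z‖ := hz
      have hz0 : z ≠ 0 := by
        rintro rfl
        rw [norm_zero] at hz'
        linarith
      refine ⟨Complex.log z, ?_, Complex.exp_log hz0⟩
      change 0 < (Complex.log z).re
      rw [Complex.log_re]
      exact Real.log_pos hz'
    · rintro ⟨ζ, hζ, rfl⟩
      change 1 < ‖exp ζ‖
      rw [norm_exp]
      exact Real.one_lt_exp_iff.2 hζ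
  rw [h1]
  refine IsConnected.image ⟨⟨1, by simp⟩, ?_⟩ _ Complex.continuous_exp.continuousOn
  exact (convex_halfSpace_re_gt 0).isPreconnected

theorem isConnected_ext (hd : 2 ≤ d) : IsConnected (interior (multibrotSet d))ᶜ := by
  obtain ⟨β, hβ⟩ := exists_beta (d := d) hd
  have hψ := exteriorMap_of_beta hβ
  rw [← closure_compl, ← hψ.image]
  exact (isConnected_out.image _ hψ.diff.continuousOn).closure

theorem norm_le_two (hd : 2 ≤ d) {c : ℂ} (hc : c ∈ multibrotSet d) : ‖c‖ ≤ 2 := by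
  have h := (Pool.Agent.H712R2.mem_multibrot_iff hd c).1 hc 1
  rwa [Pool.Agent.H712R2.P_one hd] at h

/-- **The Riemann mapping theorem for the components of the interior of the Multibrot set.** -/
theorem exists_riemann (hd : 2 ≤ d) {V : Set ℂ} (hV : IsComp d V) :
    ∃ φ : ℂ → ℂ, DifferentiableOn ℂ φ (ball 0 1) ∧ InjOn φ (ball 0 1) ∧ φ '' ball 0 1 = V := by
  obtain ⟨c, hc, rfl⟩ := hV
  have h5 : (5 : ℂ) ≠ 0 := by norm_num
  set A : ℂ ≃ₜ ℂ := (Homeomorph.mulLeft₀ (5 : ℂ) h5).trans (Homeomorph.addLeft c) with hA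
  have hAz : ∀ z, A z = c + 5 * z := fun z => rfl
  set E : Set ℂ := (interior (multibrotSet d))ᶜ with hE
  have hEc : IsConnected E := isConnected_ext hd
  have hEcl : IsClosed E := isOpen_interior.isClosed_compl
  set C : Set ℂ := A ⁻¹' E with hC
  have hCc : IsConnected C := by
    have h1 : C = A.symm '' E := (A.symm.image_eq_preimage_symm E).symm ▸ rfl
    rw [h1]
    exact hEc.image _ A.symm.continuous.continuousOn
  have hCcl : IsClosed C := hEcl.preimage A.continuous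
  have hc2 : ‖c‖ ≤ 2 := norm_le_two hd (interior_subset hc)
  have hfar : {z : ℂ | 1 ≤ ‖z‖} ⊆ C := by
    intro z hz hcon
    have h1 := norm_le_two hd (interior_subset hcon)
    rw [hAz] at h1
    have h2 : ‖(5 : ℂ) * z‖ ≤ ‖c + 5 * z‖ + ‖c‖ := by
      have := norm_sub_le (c + 5 * z) c
      rwa [add_sub_cancel_left] at this
    rw [norm_mul] at h2
    have h3 : ‖(5 : ℂ)‖ = 5 := by norm_num
    have h4 : (1 : ℝ) ≤ ‖z‖ := hz
    rw [h3] at h2
    linarith
  have h0 : (0 : ℂ) ∉ C := by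
    intro hcon
    have h1 : A 0 ∈ E := hcon
    rw [hAz, mul_zero, add_zero] at h1
    exact h1 hc
  obtain ⟨p, hp, him⟩ := HD243.t_RM C hCcl hCc hfar h0
  refine ⟨fun z => A (p z), ?_, ?_, ?_⟩
  · simp only [hAz]
    exact (hp.1.const_mul 5).const_add c
  · intro x hx y hy hxy
    exact hp.2.2.1 hx hy (A.injective hxy)
  · have h1 : (fun z => A (p z)) '' ball 0 1 = A '' (p '' ball 0 1) := by rw [image_image]
    rw [h1, him, A.image_connectedComponentIn (show (0 : ℂ) ∈ Cᶜ from h0), hAz, mul_zero, add_zero]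
    congr 1
    rw [hC, ← preimage_compl, A.image_preimage, hE, compl_compl]

/-- Almost all boundary points of a component are fat. -/
theorem ae_fat (φ : ℂ → ℂ) (hφ : DifferentiableOn ℂ φ (ball 0 1)) (hinj : InjOn φ (ball 0 1)) :
    ∀ᵐ t : ℝ, ∃ p : ℂ, RadialLimit φ t p ∧ Fat (φ '' ball 0 1) p :=
  Pool.Agent.N673.Mak.ae_of_Ioc (fun t => by simp only [radial_periodic]) (ae_fat_Ioc hφ hinj)

/-- Collet-Eckmann parameters are not fat. -/
theorem ce_not_fat (hd : 2 ≤ d) {C₁ lam : ℝ} (hC₁ : 1 ≤ C₁) (hlam : 1 < lam) {c : ℂ}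
    (hc : c ∈ CE d C₁ lam) : ¬ Fat (multibrotSet d) c := by
  obtain ⟨κ, hκ, hκ1⟩ := exists_kappa hd hlam
  obtain ⟨B, hB, h⟩ := slow_ce hd hC₁ hlam hκ hκ1
  exact h.not_fat hB.le hκ hc

/-- **Density of hyperbolicity is decided at fat parameters.** -/
theorem dense_iff (hd : 2 ≤ d) :
    multibrotSet d ⊆ closure {c | ∃ m z, IsAttractingCycle (fun z => z ^ d + c) m z} ↔
      ∀ V : Set ℂ, IsComp d V → ∀ c ∈ frontier V, Fat V c →
        ∃ c' ∈ V, ∃ m z, IsAttractingCycle (fun z => z ^ d + c') m z := by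
  obtain ⟨β, hβ⟩ := exists_beta (d := d) hd
  have hψ := exteriorMap_of_beta hβ
  rw [Pool.Agent.N673.QC.dense_iff hd hψ]
  constructor
  · intro h V hV c hc _
    obtain ⟨p, hp, hg⟩ := hV.exists_good hd hψ
    exact h p (hV.frontier_sub hd hp) hg V hV hp
  · intro h c hc _ V hV hcV
    obtain ⟨φ, h1, h2, h3⟩ := exists_riemann hd hV
    obtain ⟨t, p, hp, hf⟩ := (ae_fat φ h1 h2).exists
    rw [h3] at hf
    have hpf : p ∈ frontier V := by
      unfold RadialLimit at hp
      rw [radial_eq] at hp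
      exact Pool.Agent.N673.QC.limit_mem_frontier h1 h2 hV.isOpen h3 hp
    exact h V hV p hpf hf

/-- almost every external ray lands at a parameter with Lyapunov exponent `log d` -/
theorem ae_lyap (hd : 2 ≤ d) {ψ : ℂ → ℂ} (hψ : IsExteriorMap (multibrotSet d) ψ) :
    ∀ᵐ t : ℝ, ∃ c ∈ frontier (multibrotSet d),
      Tendsto (fun r : ℝ => ψ (r * exp (t * I))) (𝓝[>] 1) (𝓝 c) ∧
      Tendsto (fun n : ℕ => Real.log ‖deriv ((fun z : ℂ => z ^ d + c)^[n]) c‖ / n) atTop
        (𝓝 (Real.log d)) := by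
  obtain ⟨β, hβ⟩ := exists_beta (d := d) hd
  filter_upwards [Pool.Agent.Y272.TY.ae_neg' (Pool.Agent.Y272.TY.typical_all hd hβ)] with θ hθ
  obtain ⟨c₀, A, R, h⟩ := hθ
  obtain ⟨h1, h2, h3⟩ := Pool.Agent.Y298.CA.lyap_of_typ hd hβ h
  exact ⟨c₀, h.frontier hd hβ, h.tendsto_psi hβ hψ, h3⟩

end Pool.Agent.K7x.IN
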